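import Pool.Agent.MWG.Stmts

/-!
# Row MSB of block MWG (helper58): the same shape and the same facts give equality in `β`
-/

namespace Pool.Agent.MWG.H58

open Pool.Agent.Helper14_MV Pool.Agent.Helper2_MV Pool.Agent.MVO Pool.Agent.MWL Pool.Agent.MWS
  Pool.Agent.MWG

theorem msb (h1 : Pool.Agent.MWS.MasStmt) (h2 : Pool.Agent.MWG.BsmStmt) :
    Pool.Agent.MWG.MsbStmt := by
  intro β hβ k B B' hB hB' hS hF
  refine h1 β β (h2 β hβ).toApI hβ.itr (fun _ _ h => h) k B B' hB hB' hS ?_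
  intro C i A D x y _ _ hi _ hxy _ _ hn
  exact absurd (hF i hi x y hxy) hn

end Pool.Agent.MWG.H58
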